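import Pool.Agent.helper54.HC.TBase

/-!
# Project hc, torus part: specification (helper54)

Goal: `MAIN_stmt`, `DEG_stmt`, `FG_stmt` imply `HodgeCM_stmt`. Every `XX_stmt : Prop` is a module `hc:XX`.
File `Pool/Agent/<you>/HC/XX.lean`, `import Pool.Agent.helper54.HC.TSpec`, namespace `Pool.Agent.HC`,
`open scoped Matrix ComplexConjugate Classical`, `theorem XX (h : YY_stmt) ... : XX_stmt` (the statements named
under `uses`, and any others of this file except circularly, may be hypotheses); auxiliary lemmas are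
prefixed `XX_`.
-/

namespace Pool.Agent.HC

open scoped Matrix ComplexConjugate Classical

noncomputable section

/-! ## Inputs from the other parts -/

/-- DEG (helper88). -/
def DEG_stmt : Prop := ∀ (a : ℕ) (M : BallQuotient a) (u : Fin (2 * a) → (Fin a → ℂ) → ℝ),
  (∀ i, ContDiffOn ℝ (⊤ : ℕ∞) (u i) (UBall a)) →
  (∀ i, ∀ g ∈ M.Gam, ∃ m : ℤ, ∀ z ∈ UBall a,
    u i (mob (g : Matrix (Fin (a + 1)) (Fin (a + 1)) ℂ) z) - u i z = m) →
  ∃ m : ℤ, ∫ z in M.D, (Matrix.of fun i j => fderiv ℝ (u i) z (rb a j)).det = m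

/-- FG (helper28). -/
def FG_stmt : Prop := ∀ (a : ℕ) (M : BallQuotient a), M.Gam.FG

/-- ACT: the group acts on the ball. -/
def ACT_stmt : Prop := ∀ (a : ℕ) (M : BallQuotient a),
  (∀ g ∈ M.Gam, ∀ z ∈ UBall a, mob (g : Matrix (Fin (a + 1)) (Fin (a + 1)) ℂ) z ∈ UBall a) ∧
  (∀ g ∈ M.Gam, ∀ h ∈ M.Gam, ∀ z ∈ UBall a,
    mob ((g * h : GL (Fin (a + 1)) ℂ) : Matrix (Fin (a + 1)) (Fin (a + 1)) ℂ) z =
      mob (g : Matrix (Fin (a + 1)) (Fin (a + 1)) ℂ)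
        (mob (h : Matrix (Fin (a + 1)) (Fin (a + 1)) ℂ) z))

/-! ## A. Linear algebra of the torus -/

/-- TA1: the coordinates. (unfold `co`, `IsCMType`; for the last statement injectivity of `C.e`.) -/
def TA1_stmt : Prop := ∀ (W : Type) [NormedAddCommGroup W] [NormedSpace ℂ W]
  (Lam : AddSubgroup W) (C : CMData W Lam),
  (∀ (s : C.J) (h : s.2 ∈ C.Φ s.1) (w : W), C.co s w = C.e w s.1 ⟨s.2, h⟩) ∧
  (∀ (j : Fin C.r) (φ : C.K j →+* ℂ) (w : W),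
    C.co ⟨j, NumberField.ComplexEmbedding.conjugate φ⟩ w = conj (C.co ⟨j, φ⟩ w)) ∧
  (∀ (s : C.J) (c : ℂ) (w : W), s.2 ∈ C.Φ s.1 → C.co s (c • w) = c * C.co s w) ∧
  (∀ (s : C.J) (c : ℂ) (w : W), s.2 ∉ C.Φ s.1 → C.co s (c • w) = conj c * C.co s w) ∧
  (∀ w w' : W, (∀ s : C.J, C.co s w = C.co s w') → w = w')

/-- TA2: rational points. Uses TA1 and `C.lat`. -/
def TA2_stmt : Prop := ∀ (W : Type) [NormedAddCommGroup W] [NormedSpace ℂ W]
  (Lam : AddSubgroup W) (C : CMData W Lam),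
  (∀ w : W, (∃ n : ℕ, n ≠ 0 ∧ n • w ∈ Lam) ↔ ∃ x : ∀ j, C.K j, ∀ s : C.J, C.co s w = s.2 (x s.1)) ∧
  (∀ x : ∀ j, C.K j, ∃ w : W, ∀ s : C.J, C.co s w = s.2 (x s.1))

/-- TA3: the coordinates span. `ℓ(w) = Re ∑ α_φ w_φ` over the embeddings in the types (every real functional
on `ℂ^m` is the real part of a complex functional), and `Re u = (u + conj u)/2`. Uses TA1. -/
def TA3_stmt : Prop := ∀ (W : Type) [NormedAddCommGroup W] [NormedSpace ℂ W]
  (Lam : AddSubgroup W) (C : CMData W Lam) (l : W →ₗ[ℝ] ℝ),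
  ∃ c : C.J → ℂ, ∀ w, (l w : ℂ) = ∑ s, c s * C.co s w

/-- TA4: decomposition of forms (no CM data). Take a real basis `b` of `W` with dual coordinates
`ℓ_i = ∑_s c_{i,s} co_s`; expand `η(v) = ∑_I ∏_m ℓ_{I_m}(v_m) η(b_I)` (multilinearity), so
`η(v) = ∑_s C(s) ∏_m co_{s_m}(v_m)`, `C(s) = ∑_I (∏_m c_{I_m,s_m}) η(b_I)` alternating in `s`; average over the
permutations: `k! ∑_s C(s) ∏_m co_{s_m}(v_m) = ∑_s C(s) det(co_{s_i}(v_j))`. -/
def TA4_stmt : Prop := ∀ (W : Type) [AddCommGroup W] [Module ℝ W] [FiniteDimensional ℝ W]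
  (J : Type) [Fintype J] (co : J → (W →ₗ[ℝ] ℂ)),
  (∀ l : W →ₗ[ℝ] ℝ, ∃ c : J → ℂ, ∀ w, (l w : ℂ) = ∑ s, c s * co s w) →
  ∀ (k : ℕ) (η : W [⋀^Fin k]→ₗ[ℝ] ℝ), ∃ c : (Fin k → J) → ℂ,
    (∀ (s : Fin k → J) (π : Equiv.Perm (Fin k)), c (s ∘ π) = ((Equiv.Perm.sign π : ℤ) : ℂ) * c s) ∧
    ∀ v, (η v : ℂ) = ∑ s, c s * detForm (fun i => co (s i)) v

/-- TA5: a basis of the lattice with its dual coordinates (Mathlib: ZLattice; or by hand). -/
def TA5_stmt : Prop := ∀ (W : Type) [NormedAddCommGroup W] [NormedSpace ℂ W]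
  [FiniteDimensional ℂ W] (Lam : AddSubgroup W), IsLattice Lam →
  ∃ (n : ℕ) (b : Fin n → W) (l : Fin n → (W →ₗ[ℝ] ℝ)), (∀ i, b i ∈ Lam) ∧
    (∀ i, ∀ w ∈ Lam, ∃ z : ℤ, l i w = z) ∧ (∀ w, w = ∑ i, l i w • b i) ∧
    (∀ i j, l i (b j) = if i = j then 1 else 0)

/-- TA6: decomposition of real and of rational forms on a lattice basis (as TA4, with
`η(v) = (1/k!) ∑_I η(b_I) det(ℓ_{I_i}(v_j))`). -/
def TA6_stmt : Prop := ∀ (W : Type) [NormedAddCommGroup W] [NormedSpace ℂ W]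
  (Lam : AddSubgroup W) (n : ℕ) (b : Fin n → W) (l : Fin n → (W →ₗ[ℝ] ℝ)), (∀ i, b i ∈ Lam) →
  (∀ w, w = ∑ i, l i w • b i) → ∀ (k : ℕ) (η : W [⋀^Fin k]→ₗ[ℝ] ℝ),
  (∀ v, η v = ∑ I : Fin k → Fin n, (η (fun m => b (I m)) / (k.factorial : ℝ)) *
    detForm (fun i => l (I i)) v) ∧
  (IsRat Lam η → ∃ q : (Fin k → Fin n) → ℚ, ∀ v, η v = ∑ I, (q I : ℝ) *
    detForm (fun i => l (I i)) v)

/-- TA7: duality. Let `H` be the `ℚ`-space of rational classes; evaluation at the forms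
`det(ℓ_{I_i}(v_j))` (TA5, TA6; these forms are rational and span all forms over `ℝ`) embeds it in
`ℚ^(Fin k → Fin n)`. If `ξ` is not in the `ℚ`-span of `S`, there is `d ∈ ℚ^(...)` orthogonal to the image of `S`
and not to the image of `ξ`; take `η = ∑ d_I det(ℓ_I)`. Uses TA5, TA6. -/
def TA7_stmt : Prop := ∀ (W : Type) [NormedAddCommGroup W] [NormedSpace ℂ W]
  [FiniteDimensional ℂ W] (Lam : AddSubgroup W), IsLattice Lam → ∀ (k : ℕ)
  (S : Set ((W [⋀^Fin k]→ₗ[ℝ] ℝ) →ₗ[ℝ] ℝ)), (∀ c ∈ S, IsRatClass Lam c) →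
  ∀ ξ : (W [⋀^Fin k]→ₗ[ℝ] ℝ) →ₗ[ℝ] ℝ, IsRatClass Lam ξ →
  (∀ η, IsRat Lam η → (∀ c ∈ S, c η = 0) → ξ η = 0) →
  ∃ (n : ℕ) (q : Fin n → ℚ) (c : Fin n → ((W [⋀^Fin k]→ₗ[ℝ] ℝ) →ₗ[ℝ] ℝ)), (∀ i, c i ∈ S) ∧
    ξ = ∑ i, (q i : ℝ) • c i

/-- TA8: `extC ξ` is `ℂ`-linear; expansion in weights. -/
def TA8_stmt : Prop := ∀ (W : Type) [NormedAddCommGroup W] [NormedSpace ℂ W]
  (k : ℕ) (ξ : (W [⋀^Fin k]→ₗ[ℝ] ℝ) →ₗ[ℝ] ℝ),
  (∀ (c : ℂ) (ω : W [⋀^Fin k]→ₗ[ℝ] ℂ), extC ξ (c • ω) = c * extC ξ ω) ∧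
  (∀ ω ω' : W [⋀^Fin k]→ₗ[ℝ] ℂ, extC ξ (ω + ω') = extC ξ ω + extC ξ ω') ∧
  (∀ (T : Type) [Fintype T] (c : T → ℂ) (ω : T → W [⋀^Fin k]→ₗ[ℝ] ℂ) (η : W [⋀^Fin k]→ₗ[ℝ] ℝ),
    (∀ v, (η v : ℂ) = ∑ s, c s * ω s v) → (ξ η : ℂ) = ∑ s, c s * extC ξ (ω s))

/-- TA9: types. `det(co_{s_i}(e^{it} v_j)) = e^{i(p-q)t} det(co_{s_i}(v_j))`, `p` the number of `i` with `s_i` in the
types, `p + q = 2a`; invariance under `rot t` for all `t`. Uses TA1, TA8. -/
def TA9_stmt : Prop := ∀ (W : Type) [NormedAddCommGroup W] [NormedSpace ℂ W]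
  (Lam : AddSubgroup W) (C : CMData W Lam) (a : ℕ) (ξ : (W [⋀^Fin (2 * a)]→ₗ[ℝ] ℝ) →ₗ[ℝ] ℝ),
  (∀ (t : ℝ) (η : W [⋀^Fin (2 * a)]→ₗ[ℝ] ℝ), ξ (η.compLinearMap (rot t)) = ξ η) →
  ∀ s : Fin (2 * a) → C.J, C.wt ξ s ≠ 0 → Nat.card {i // (s i).2 ∈ C.Φ (s i).1} = a

/-- TA10: `ℚ`-forms on `∏ K_j` extend to real forms on `W`. With the lattice basis `b` (TA5) and the
coordinates `x^(i) ∈ ∏ K_j` of `b_i` (TA2): `η(v) = ∑_I (∏_m ℓ_{I_m}(v_m)) α(x^(I))`, alternating since `α` is;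
equality on the rational span by `ℚ`-multilinearity (there `ℓ_i` is rational). Uses TA1, TA2, TA5. -/
def TA10_stmt : Prop := ∀ (W : Type) [NormedAddCommGroup W] [NormedSpace ℂ W]
  [FiniteDimensional ℂ W] (Lam : AddSubgroup W), IsLattice Lam → ∀ (C : CMData W Lam) (k : ℕ)
  (α : (∀ j, C.K j) [⋀^Fin k]→ₗ[ℚ] ℚ), ∃ η : W [⋀^Fin k]→ₗ[ℝ] ℝ,
  ∀ (v : Fin k → W) (x : Fin k → ∀ j, C.K j), (∀ i (s : C.J), C.co s (v i) = s.2 (x i s.1)) →
    η v = (α x : ℝ)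

/-- TA11: Galois conjugation of weights of rational classes. `e_p` a `ℚ`-basis of `E`, `π_p : E → ℚ` its
coordinates, `α_p(x_1..x_k) = π_p(det(ψ_i((x_m)_{j_i})))`, `η_p` the form of TA10 (rational). For every
embedding `σ` of `E`: `det(co_{(j_i, σ ψ_i)}) = ∑_p σ(e_p) η_p` (compare on the basis of the lattice), so
`wt = ∑_p σ(e_p) ξ(η_p) = σ(∑_p ξ(η_p) e_p)` with `ξ(η_p) ∈ ℚ`. Uses TA2, TA5, TA6 (or ext on a basis), TA8,
TA10. -/
def TA11_stmt : Prop := ∀ (W : Type) [NormedAddCommGroup W] [NormedSpace ℂ W]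
  [FiniteDimensional ℂ W] (Lam : AddSubgroup W), IsLattice Lam → ∀ (C : CMData W Lam) (k : ℕ)
  (ξ : (W [⋀^Fin k]→ₗ[ℝ] ℝ) →ₗ[ℝ] ℝ), IsRatClass Lam ξ →
  ∀ (E : Type) [Field E] [NumberField E] (ι σ : E →+* ℂ) (j : Fin k → Fin C.r)
    (ψ : ∀ i, C.K (j i) →+* E), C.wt ξ (C.twist ι j ψ) = 0 → C.wt ξ (C.twist σ j ψ) = 0

/-- TA12: a Hodge class has no unbalanced weights. Uses TA9, TA11. -/
def TA12_stmt : Prop := ∀ (W : Type) [NormedAddCommGroup W] [NormedSpace ℂ W]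
  [FiniteDimensional ℂ W] (Lam : AddSubgroup W), IsLattice Lam → ∀ (C : CMData W Lam) (a : ℕ)
  (ξ : (W [⋀^Fin (2 * a)]→ₗ[ℝ] ℝ) →ₗ[ℝ] ℝ), IsHodge Lam ξ →
  ∀ (E : Type) [Field E] [NumberField E] (ι : E →+* ℂ) (j : Fin (2 * a) → Fin C.r)
    (ψ : ∀ i, C.K (j i) →+* E),
    (∃ σ : E →+* ℂ, Nat.card {i // σ.comp (ψ i) ∈ C.Φ (j i)} ≠ a) → C.wt ξ (C.twist ι j ψ) = 0

/-- TA13: scalar matrices, real multiples of the twist: multiplication by `t ∈ ∏ K_j`. Uses TA1. -/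
def TA13_stmt : Prop := ∀ (W : Type) [NormedAddCommGroup W] [NormedSpace ℂ W]
  (Lam : AddSubgroup W) (C : CMData W Lam) (t : ∀ j, C.K j),
  ∃ m : W →ₗ[ℂ] W, ∀ (s : C.J) (w : W), C.co s (m w) = s.2 (t s.1) * C.co s w

/-! ## B. Classes of maps -/

/-- TB1: continuous functions on the ball are integrable on `D` (compactly contained). -/
def TB1_stmt : Prop := ∀ (a : ℕ) (M : BallQuotient a) (u : (Fin a → ℂ) → ℂ),
  ContinuousOn u (UBall a) → MeasureTheory.IntegrableOn u M.D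

/-- TB2: holomorphic functions of several variables are smooth. `fderiv ℂ f z v` is the derivative at `0` of
`t ↦ f(z + t v)`, so `(1/2πi) ∮ f(z + t v) t⁻² dt`; hence continuous in `z` (a differentiable `f` is
continuous); differentiate under the integral: it is again holomorphic; induction on `n`. -/
def TB2_stmt : Prop := ∀ (a : ℕ) (X : Type) [NormedAddCommGroup X] [NormedSpace ℂ X]
  [FiniteDimensional ℂ X] (U : Set (Fin a → ℂ)) (f : (Fin a → ℂ) → X), IsOpen U →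
  DifferentiableOn ℂ f U → ContDiffOn ℂ (⊤ : ℕ∞) f U

/-- TB3: the class of a map is a linear functional. Uses TB1, TB2. -/
def TB3_stmt : Prop := ∀ (W : Type) [NormedAddCommGroup W] [NormedSpace ℂ W]
  [FiniteDimensional ℂ W] (a : ℕ) (M : BallQuotient a) (f : (Fin a → ℂ) → W),
  DifferentiableOn ℂ f (UBall a) →
  ∃ L : (W [⋀^Fin (2 * a)]→ₗ[ℝ] ℝ) →ₗ[ℝ] ℝ, ∀ η, L η = cls M f η

/-- TB4: the class in terms of weights. Uses TB1, TB2. -/
def TB4_stmt : Prop := ∀ (W : Type) [NormedAddCommGroup W] [NormedSpace ℂ W]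
  [FiniteDimensional ℂ W] (Lam : AddSubgroup W) (C : CMData W Lam) (a : ℕ) (M : BallQuotient a)
  (f : (Fin a → ℂ) → W), DifferentiableOn ℂ f (UBall a) →
  ∀ (η : W [⋀^Fin (2 * a)]→ₗ[ℝ] ℝ) (c : (Fin (2 * a) → C.J) → ℂ),
  (∀ v, (η v : ℂ) = ∑ s, c s * detForm (fun i => C.co (s i)) v) →
  (cls M f η : ℂ) = ∑ s, c s * C.per M f s

/-- TB5: `C.per M f` is alternating in the weights, and composition with multiplication by `t`
multiplies it by the character (the fderiv of `m ∘ f`; outside the ball nothing is needed since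
`D` is contained in the ball). Uses nothing. -/
def TB5_stmt : Prop := ∀ (W : Type) [NormedAddCommGroup W] [NormedSpace ℂ W]
  [FiniteDimensional ℂ W] (Lam : AddSubgroup W) (C : CMData W Lam) (a : ℕ) (M : BallQuotient a)
  (f : (Fin a → ℂ) → W), DifferentiableOn ℂ f (UBall a) →
  (∀ (s : Fin (2 * a) → C.J) (π : Equiv.Perm (Fin (2 * a))),
    C.per M f (s ∘ π) = ((Equiv.Perm.sign π : ℤ) : ℂ) * C.per M f s) ∧
  (∀ (t : ∀ j, C.K j) (m : W →ₗ[ℂ] W),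
    (∀ (s : C.J) (w : W), C.co s (m w) = s.2 (t s.1) * C.co s w) →
    ∀ s : Fin (2 * a) → C.J,
      C.per M (fun z => m (f z)) s = (∏ i, (s i).2 (t (s i).1)) * C.per M f s)

/-- TB6: rationality of the class. Write a rational form as in TA6; `ℓ_i ∘ f` is smooth (TB2) with
integral periods, constant in `z` because `z ↦ ℓ_i(f(g z) - f(z))` is continuous and integer valued on the
connected ball (`IsPreconnected.constant_of_mapsTo`). Uses DEG, ACT, TA5, TA6, TB2, TB3. -/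
def TB6_stmt : Prop := ∀ (W : Type) [NormedAddCommGroup W] [NormedSpace ℂ W]
  [FiniteDimensional ℂ W] (Lam : AddSubgroup W), IsLattice Lam → ∀ (a : ℕ) (M : BallQuotient a)
  (f : (Fin a → ℂ) → W), IsMap M Lam f → ∀ η : W [⋀^Fin (2 * a)]→ₗ[ℝ] ℝ, IsRat Lam η →
  ∃ q : ℚ, cls M f η = q

/-- TB7: a `ℚ`-map has a multiple which is a map. The period `w_g` is additive in `g` (ACT), `Gam` is
finitely generated (FG): a common multiple works for all `g`. Uses ACT, FG. -/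
def TB7_stmt : Prop := ∀ (W : Type) [NormedAddCommGroup W] [NormedSpace ℂ W]
  (Lam : AddSubgroup W) (a : ℕ) (M : BallQuotient a) (f : (Fin a → ℂ) → W), IsQMap M Lam f →
  ∃ n : ℕ, n ≠ 0 ∧ IsMap M Lam (fun z => n • f z)

/-- TB8: scaling. -/
def TB8_stmt : Prop := ∀ (W : Type) [NormedAddCommGroup W] [NormedSpace ℂ W] (a : ℕ)
  (M : BallQuotient a) (f : (Fin a → ℂ) → W) (n : ℕ) (η : W [⋀^Fin (2 * a)]→ₗ[ℝ] ℝ),
  DifferentiableOn ℂ f (UBall a) →
  cls M (fun z => n • f z) η = (n : ℝ) ^ (2 * a) * cls M f η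

/-! ## C. Characters, traces, existence of maps -/

/-- TC1: the weights are determined by their characters. Taking `t_j = m` (an integer), `t_{j'} = 1` for `j' ≠ j`:
the numbers of `i` with `(s i).1 = j` agree; `t_j = m - θ_j`, `θ_j` a primitive element of `K_j`, all `m ∈ ℕ`:
`∏ (X - φ(θ_j))` over the embeddings in `s` with first component `j` is the same polynomial, and
`φ ↦ φ(θ_j)` is injective. -/
def TC1_stmt : Prop := ∀ (W : Type) [NormedAddCommGroup W] [NormedSpace ℂ W]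
  (Lam : AddSubgroup W) (C : CMData W Lam) (k : ℕ) (s s' : Fin k → C.J), Function.Injective s →
  Function.Injective s' → (∀ t : ∀ j, C.K j, ∏ i, (s i).2 (t (s i).1) = ∏ i, (s' i).2 (t (s' i).1)) →
  ∃ π : Equiv.Perm (Fin k), s' = s ∘ π

/-- TC2: Dedekind. Group the sum by characters `(∏ K_j) →* ℂ` (`linearIndependent_monoidHom`); the terms with the
character of `s` (injective) are the `s ∘ π` (TC1), each equal to `c s * I s`; for `s` not injective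
`c s = 0`. Uses TC1. -/
def TC2_stmt : Prop := ∀ (W : Type) [NormedAddCommGroup W] [NormedSpace ℂ W]
  (Lam : AddSubgroup W) (C : CMData W Lam) (k : ℕ) (c I : (Fin k → C.J) → ℂ),
  (∀ (s : Fin k → C.J) (π : Equiv.Perm (Fin k)), c (s ∘ π) = ((Equiv.Perm.sign π : ℤ) : ℂ) * c s) →
  (∀ (s : Fin k → C.J) (π : Equiv.Perm (Fin k)), I (s ∘ π) = ((Equiv.Perm.sign π : ℤ) : ℂ) * I s) →
  (∀ t : ∀ j, C.K j, ∑ s, c s * ((∏ i, (s i).2 (t (s i).1)) * I s) = 0) →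
  ∀ s, c s * I s = 0

/-- TC3: adapted fields exist. `E` = the subfield of `ℂ` generated by the images of all embeddings of all
`K_j`, by `√5` and by `i` (Galois over `ℚ`, number field); complex conjugation preserves `E` and commutes with
every embedding of `E` (check on generators: `K_j` is CM), so `NumberField.IsCMField.of_forall_isConj`;
degree at least 4 since it contains `ℚ(i, √5)`; `E` is totally complex since it contains `i`. May be
split: `TC3a` the compositum, `TC3b` CM. -/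
def TC3_stmt : Prop := ∀ (W : Type) [NormedAddCommGroup W] [NormedSpace ℂ W]
  (Lam : AddSubgroup W) (C : CMData W Lam),
  ∃ (E : Type) (_ : Field E) (_ : NumberField E) (ι : E →+* ℂ), Adapted C E ι

/-- TC4: traces (`trace_eq_sum_embeddings` for the algebra structure given by `ψ`). -/
def TC4_stmt : Prop := ∀ (K E : Type) [Field K] [NumberField K] [Field E] [NumberField E]
  (ψ : K →+* E), ∃ T : E →+ K, ∀ (φ : K →+* ℂ) (y : E),
    φ (T y) = ∑ σ : E →+* ℂ, if σ.comp ψ = φ then σ y else 0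

/-- TC5: construction of maps to the torus. `f z` is defined by its coordinates at the embeddings in the
types; for `s.2 ∈ Φ` only `σ` with `σ.comp (ψ l) ∈ Φ` occur. Period at `g`: coordinates of
`∑_l Pi.single (j l) (T_l (t_l * lam l g))` (TC4, TA2). Uses TA1, TA2, TC4. -/
def TC5_stmt : Prop := ∀ (W : Type) [NormedAddCommGroup W] [NormedSpace ℂ W]
  [FiniteDimensional ℂ W] (Lam : AddSubgroup W) (C : CMData W Lam) (a n : ℕ) (M : BallQuotient a)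
  (E : Type) [Field E] [NumberField E] (j : Fin n → Fin C.r) (ψ : ∀ i, C.K (j i) →+* E)
  (lam : Fin n → GL (Fin (a + 1)) ℂ → E) (F : Fin n → (E →+* ℂ) → (Fin a → ℂ) → ℂ),
  (∀ k (σ : E →+* ℂ), σ.comp (ψ k) ∈ C.Φ (j k) → DifferentiableOn ℂ (F k σ) (UBall a)) →
  (∀ k σ z, F k (NumberField.ComplexEmbedding.conjugate σ) z = conj (F k σ z)) →
  (∀ k σ, ∀ g ∈ M.Gam, ∀ z ∈ UBall a,
    F k σ (mob (g : Matrix (Fin (a + 1)) (Fin (a + 1)) ℂ) z) = F k σ z + σ (lam k g)) →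
  ∀ t : Fin n → E, ∃ f : (Fin a → ℂ) → W, IsQMap M Lam f ∧ ∀ (s : C.J) (z : Fin a → ℂ),
    C.co s (f z) = ∑ l, ∑ σ : E →+* ℂ,
      if (⟨j l, σ.comp (ψ l)⟩ : C.J) = s then σ (t l) * F l σ z else 0

/-- TC6: extraction of a coefficient. The function of `t` is a linear combination of characters
`(Fin n → E) →* ℂ`; the character of `g` equals that of `k ↦ (k, ι)` only if `g = (π k, ι)`: put `t_l = 2`, the others 1
(so exactly one `k` with `(g k).1 = l`), then `t_l = u`. Dedekind: the coefficient of that character is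
`a (k ↦ (k, ι)) ≠ 0`. -/
def TC6_stmt : Prop := ∀ (E : Type) [Field E] [NumberField E] (ι : E →+* ℂ) (n : ℕ)
  (A : (Fin n → Fin n × (E →+* ℂ)) → ℂ), A (fun k => (k, ι)) ≠ 0 →
  (∀ g, (∃ π : Equiv.Perm (Fin n), ∀ k, g k = (π k, ι)) → g ≠ (fun k => (k, ι)) → A g = 0) →
  ∃ t : Fin n → E, ∑ g, A g * ∏ k, (g k).2 (t (g k).1) ≠ 0

/-- TC7: expansion of the period of the map of TC5. On the ball all `F l σ` are real differentiable
(holomorphic or conjugate holomorphic), `fderiv` of `co_s ∘ f` is the sum; multilinearity of the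
determinant in the rows; integrate (TB1, TB2). Uses TB1, TB2. -/
def TC7_stmt : Prop := ∀ (W : Type) [NormedAddCommGroup W] [NormedSpace ℂ W]
  [FiniteDimensional ℂ W] (Lam : AddSubgroup W) (C : CMData W Lam) (a : ℕ) (M : BallQuotient a)
  (E : Type) [Field E] [NumberField E] (j : Fin (2 * a) → Fin C.r) (ψ : ∀ i, C.K (j i) →+* E)
  (F : Fin (2 * a) → (E →+* ℂ) → (Fin a → ℂ) → ℂ),
  (∀ k (σ : E →+* ℂ), σ.comp (ψ k) ∈ C.Φ (j k) → DifferentiableOn ℂ (F k σ) (UBall a)) →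
  (∀ k σ z, F k (NumberField.ComplexEmbedding.conjugate σ) z = conj (F k σ z)) →
  ∀ (t : Fin (2 * a) → E) (f : (Fin a → ℂ) → W), DifferentiableOn ℂ f (UBall a) →
  (∀ (s : C.J) (z : Fin a → ℂ), C.co s (f z) = ∑ l, ∑ σ : E →+* ℂ,
      if (⟨j l, σ.comp (ψ l)⟩ : C.J) = s then σ (t l) * F l σ z else 0) →
  ∀ s : Fin (2 * a) → C.J, C.per M f s = ∑ g : Fin (2 * a) → Fin (2 * a) × (E →+* ℂ),
    (if ∀ k, (⟨j (g k).1, (g k).2.comp (ψ (g k).1)⟩ : C.J) = s k then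
      (∫ z in M.D, (Matrix.of fun k m => fderiv ℝ (F (g k).1 (g k).2) z (rb a m)).det) else 0) *
    ∏ k, (g k).2 (t (g k).1)

/-- TC8: existence of maps with nonzero period at a given balanced weight. Apply MAIN to
`Ψ_k = {σ | σ.comp (ψ k) ∈ C.Φ (j k)}`, then TC5, TC7, TC6 (if `g k = (π k, ι)` satisfies the condition in TC7 for
`s = C.twist ι j ψ`, then `s (π k) = s k` so `π = 1`). Uses MAIN, TC5, TC6, TC7. -/
def TC8_stmt : Prop := ∀ (W : Type) [NormedAddCommGroup W] [NormedSpace ℂ W]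
  [FiniteDimensional ℂ W] (Lam : AddSubgroup W) (C : CMData W Lam) (a : ℕ), 1 ≤ a →
  ∀ (E : Type) [Field E] [NumberField E] (ι : E →+* ℂ), Adapted C E ι →
  ∀ (j : Fin (2 * a) → Fin C.r) (ψ : ∀ i, C.K (j i) →+* E),
    Function.Injective (C.twist ι j ψ) →
    (∀ σ : E →+* ℂ, Nat.card {i // σ.comp (ψ i) ∈ C.Φ (j i)} = a) →
  ∃ (M : BallQuotient a) (f : (Fin a → ℂ) → W), IsQMap M Lam f ∧ C.per M f (C.twist ι j ψ) ≠ 0

/-! ## D. Assembly -/

/-- TD1: the case `a = 0`: the trivial group, `D` the one point space, `f = 0`; `cls M f η = η default` (the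
volume of the one point space `Fin 0 → ℂ` is 1); `ξ` is determined by its value at the constant
form 1, which is rational. -/
def TD1_stmt : Prop := ∀ (W : Type) [NormedAddCommGroup W] [NormedSpace ℂ W]
  (Lam : AddSubgroup W) (ξ : (W [⋀^Fin (2 * 0)]→ₗ[ℝ] ℝ) →ₗ[ℝ] ℝ), IsHodge Lam ξ →
  ∃ (n : ℕ) (q : Fin n → ℚ) (M : Fin n → BallQuotient 0) (f : Fin n → (Fin 0 → ℂ) → W),
    (∀ i, IsMap (M i) Lam (f i)) ∧ ∀ η : W [⋀^Fin (2 * 0)]→ₗ[ℝ] ℝ,
      ξ η = ∑ i, (q i : ℝ) * cls (M i) (f i) η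

/-- TD2: a rational form killed by all classes of maps has no balanced weights, so is killed by
all Hodge classes. `η = ∑ c_s det(co_s)` (TA3, TA4). For a map `f` up to multiples and `t ∈ ∏ K_j`, `m ∘ f` (TA13)
is again one (TA2), so `∑_s c_s χ_s(t) per_s(f) = 0` (TB4, TB5, TB7, TB8), so `c_s per_s(f) = 0` (TC2) for all `s` and
`f`, so `c_s = 0` for balanced injective `s` (TC3, TC8; every `s` is `C.twist ι j ψ`), and `wt ξ s = 0` for
unbalanced `s` (TA12), `ξ η = ∑ c_s wt ξ s` (TA8). Uses all of these. -/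
def TD2_stmt : Prop := ∀ (W : Type) [NormedAddCommGroup W] [NormedSpace ℂ W]
  [FiniteDimensional ℂ W] (Lam : AddSubgroup W), IsLattice Lam → ∀ (C : CMData W Lam) (a : ℕ), 1 ≤ a →
  ∀ ξ : (W [⋀^Fin (2 * a)]→ₗ[ℝ] ℝ) →ₗ[ℝ] ℝ, IsHodge Lam ξ →
  ∀ η : W [⋀^Fin (2 * a)]→ₗ[ℝ] ℝ,
    (∀ (M : BallQuotient a) (f : (Fin a → ℂ) → W), IsMap M Lam f → cls M f η = 0) → ξ η = 0

end

end Pool.Agent.HC
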