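import Mathlib

/-!
# Project hc: definitions for the final statement (Hodge classes on complex tori of CM type)

A complex torus is `W ⧸ Lam`, `W` a finite dimensional complex vector space and `Lam` a full lattice.
`H^k(W ⧸ Lam, ℝ)` is the space of constant real alternating `k`-forms on `W`; such a form is rational iff
it takes rational values on `Lam`. A homology class is a linear functional on the constant forms (it
integrates them); it is rational iff it takes rational values on rational forms, and it is a Hodge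
class iff it is invariant under the circle `w ↦ exp(it) w` (for degree `2a`: type `(-a,-a)`).
-/

namespace Pool.Agent.HC

open scoped Matrix ComplexConjugate

noncomputable section

/-! ## Compact ball quotients -/

/-- the unit ball of `ℂ^a` -/
def UBall (a : ℕ) : Set (Fin a → ℂ) := {z | ∑ i, Complex.normSq (z i) < 1}

/-- the matrix `diag(1, ..., 1, -1)` -/
def hm (a : ℕ) : Matrix (Fin (a + 1)) (Fin (a + 1)) ℂ := Matrix.diagonal (Fin.snoc (fun _ => 1) (-1))

/-- the action of a matrix on the ball: first `a` coordinates of `g (z, 1)` divided by the last one -/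
def mob {a : ℕ} (g : Matrix (Fin (a + 1)) (Fin (a + 1)) ℂ) (z : Fin a → ℂ) : Fin a → ℂ :=
  fun i => (g *ᵥ (Fin.snoc z 1)) i.castSucc / (g *ᵥ (Fin.snoc z 1)) (Fin.last a)

/-- A compact ball quotient `Gam \ B^a`: a group `Gam` of matrices preserving the form
`|z_1|² + ... + |z_a|² - |z_{a+1}|²`, acting freely and properly discontinuously on the ball, with a
measurable fundamental set `D`, contained in a compact subset of the ball (so the quotient is a
compact complex manifold). -/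
structure BallQuotient (a : ℕ) where
  Gam : Subgroup (GL (Fin (a + 1)) ℂ)
  D : Set (Fin a → ℂ)
  unitary : ∀ g ∈ Gam, (g : Matrix (Fin (a + 1)) (Fin (a + 1)) ℂ)ᴴ * hm a * g = hm a
  free : ∀ g ∈ Gam, ∀ z ∈ UBall a, mob (g : Matrix (Fin (a + 1)) (Fin (a + 1)) ℂ) z = z → g = 1
  proper : ∀ K : Set (Fin a → ℂ), K ⊆ UBall a → IsCompact K →
    {g : GL (Fin (a + 1)) ℂ | g ∈ Gam ∧
      (mob (g : Matrix (Fin (a + 1)) (Fin (a + 1)) ℂ) '' K ∩ K).Nonempty}.Finite
  measD : MeasurableSet D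
  cptD : ∃ K : Set (Fin a → ℂ), K ⊆ UBall a ∧ IsCompact K ∧ D ⊆ K
  fundD : ∀ z ∈ UBall a, ∃! g : GL (Fin (a + 1)) ℂ,
    g ∈ Gam ∧ mob (g : Matrix (Fin (a + 1)) (Fin (a + 1)) ℂ) z ∈ D

/-- the standard oriented real basis `e_1, i e_1, e_2, i e_2, ...` of `ℂ^a` -/
def rb (a : ℕ) (j : Fin (2 * a)) : Fin a → ℂ :=
  Pi.single (⟨j / 2, by omega⟩ : Fin a) (if (j : ℕ) % 2 = 0 then 1 else Complex.I)

/-! ## Complex tori, holomorphic maps and their classes -/

variable {W : Type} [NormedAddCommGroup W] [NormedSpace ℂ W]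

/-- `f : B^a → W` induces a holomorphic map `Gam \ B^a → W ⧸ Lam` (every holomorphic map of `Gam \ B^a` to
the torus `W ⧸ Lam` arises so, since the ball is simply connected). -/
structure IsMap {a : ℕ} (M : BallQuotient a) (Lam : AddSubgroup W) (f : (Fin a → ℂ) → W) : Prop where
  hol : DifferentiableOn ℂ f (UBall a)
  per : ∀ g ∈ M.Gam, ∀ z ∈ UBall a,
    f (mob (g : Matrix (Fin (a + 1)) (Fin (a + 1)) ℂ) z) - f z ∈ Lam

/-- the class of a holomorphic map `f : Gam \ B^a → W ⧸ Lam`: the integral over `Gam \ B^a` of the pullback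
of a constant `2a`-form `η` -/
def cls {a : ℕ} (M : BallQuotient a) (f : (Fin a → ℂ) → W) (η : W [⋀^Fin (2 * a)]→ₗ[ℝ] ℝ) : ℝ :=
  ∫ z in M.D, η (fun j => fderiv ℝ f z (rb a j))

/-- a constant form with rational values on the lattice: an element of `H^k(W ⧸ Lam, ℚ)` -/
def IsRat {k : ℕ} (Lam : AddSubgroup W) (η : W [⋀^Fin k]→ₗ[ℝ] ℝ) : Prop :=
  ∀ v : Fin k → W, (∀ i, v i ∈ Lam) → ∃ q : ℚ, η v = q

/-- an element of `H_k(W ⧸ Lam, ℚ)` -/
def IsRatClass {k : ℕ} (Lam : AddSubgroup W) (ξ : (W [⋀^Fin k]→ₗ[ℝ] ℝ) →ₗ[ℝ] ℝ) : Prop :=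
  ∀ η : W [⋀^Fin k]→ₗ[ℝ] ℝ, IsRat Lam η → ∃ q : ℚ, ξ η = q

/-- multiplication by `exp(it)` -/
def rot (t : ℝ) : W →ₗ[ℝ] W :=
  ((Complex.exp (t * Complex.I)) • (LinearMap.id : W →ₗ[ℂ] W)).restrictScalars ℝ

/-- a rational Hodge class (rational homology class of degree `2a` and Hodge type `(-a,-a)`; by
Poincare duality the Hodge classes in `H^{2p}`, `p = dim W - a`) -/
structure IsHodge {a : ℕ} (Lam : AddSubgroup W) (ξ : (W [⋀^Fin (2 * a)]→ₗ[ℝ] ℝ) →ₗ[ℝ] ℝ) : Prop where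
  rat : IsRatClass Lam ξ
  type : ∀ (t : ℝ) (η : W [⋀^Fin (2 * a)]→ₗ[ℝ] ℝ), ξ (η.compLinearMap (rot t)) = ξ η

/-! ## CM tori -/

/-- a CM type of the field `K`: exactly one embedding of every pair of complex conjugate embeddings -/
def IsCMType {K : Type} [Field K] (Φ : Set (K →+* ℂ)) : Prop :=
  ∀ φ : K →+* ℂ, (φ ∈ Φ ↔ ¬ NumberField.ComplexEmbedding.conjugate φ ∈ Φ)

/-- A complex torus of CM type: up to isogeny a product of tori `ℂ^Φ ⧸ Φ(O_K)`, `K` a CM field and `Φ` a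
CM type. Every complex abelian variety with complex multiplication is of this form. -/
structure CMData (W : Type) [NormedAddCommGroup W] [NormedSpace ℂ W] (Lam : AddSubgroup W) where
  r : ℕ
  K : Fin r → Type
  [field : ∀ j, Field (K j)]
  [nf : ∀ j, NumberField (K j)]
  cm : ∀ j, NumberField.IsCMField (K j)
  Φ : ∀ j, Set (K j →+* ℂ)
  type : ∀ j, IsCMType (Φ j)
  /-- the complex structure: `W = ∏ ℂ^Φ_j` -/
  e : W ≃ₗ[ℂ] (∀ j, Φ j → ℂ)
  /-- `ℚ Lam = ∏ K_j`, embedded in `∏ ℂ^Φ_j` by `x ↦ (φ(x_j))` -/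
  lat : ∀ w : W, (∃ n : ℕ, n ≠ 0 ∧ n • w ∈ Lam) ↔
    ∃ x : ∀ j, K j, ∀ (j : Fin r) (φ : Φ j), e w j φ = (φ : K j →+* ℂ) (x j)

/-- full lattice -/
structure IsLattice (Lam : AddSubgroup W) : Prop where
  discrete : ∃ ε > 0, ∀ w ∈ Lam, ‖w‖ < ε → w = 0
  span : Submodule.span ℝ (Lam : Set W) = ⊤

/-! ## The theorem -/

/-- THE THEOREM. `W ⧸ Lam` a complex torus of CM type. Every rational Hodge class of degree `2a` is a
`ℚ`-linear combination of classes of holomorphic maps of compact ball quotients of dimension `a`. -/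
def HodgeCM_stmt : Prop :=
  ∀ (W : Type) [NormedAddCommGroup W] [NormedSpace ℂ W] [FiniteDimensional ℂ W]
    (Lam : AddSubgroup W), IsLattice Lam → Nonempty (CMData W Lam) →
  ∀ (a : ℕ) (ξ : (W [⋀^Fin (2 * a)]→ₗ[ℝ] ℝ) →ₗ[ℝ] ℝ), IsHodge Lam ξ →
  ∃ (n : ℕ) (q : Fin n → ℚ) (M : Fin n → BallQuotient a) (f : Fin n → (Fin a → ℂ) → W),
    (∀ i, IsMap (M i) Lam (f i)) ∧ ∀ η : W [⋀^Fin (2 * a)]→ₗ[ℝ] ℝ,
      ξ η = ∑ i, (q i : ℝ) * cls (M i) (f i) η

/-! ## The interface between the arithmetic part and the torus part -/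

/-- MAIN (to be proved by FACT A and the nonvanishing): `E` a Galois CM field of degree at least 4
containing a square root of -1,
`Ψ_1, ..., Ψ_{2a}` CM types such that every embedding lies in exactly `a` of them. There are a compact
ball quotient `Gam \ B^a` and holomorphic maps `f_k : Gam \ B^a → ℂ^Ψ_k ⧸ Ψ_k(E)` (periods
`λ_k : Gam → E`) with `∫ dF_1 ∧ ... ∧ dF_{2a} ≠ 0`, `F_k` the coordinate of `f_k` at the embedding `ι`, or the complex
conjugate of the coordinate at `conj ι` if `ι ∉ Ψ_k`. -/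
def MAIN_stmt : Prop :=
  ∀ (E : Type) [Field E] [NumberField E] [IsGalois ℚ E] (ι : E →+* ℂ), NumberField.IsCMField E →
    4 ≤ Module.finrank ℚ E → (∃ i : E, i ^ 2 = -1) →
  ∀ (a : ℕ), 1 ≤ a → ∀ Ψ : Fin (2 * a) → Set (E →+* ℂ), (∀ k, IsCMType (Ψ k)) →
    (∀ σ : E →+* ℂ, Nat.card {k // σ ∈ Ψ k} = a) →
  ∃ (M : BallQuotient a) (lam : Fin (2 * a) → GL (Fin (a + 1)) ℂ → E)
    (F : Fin (2 * a) → (E →+* ℂ) → (Fin a → ℂ) → ℂ),
    (∀ k, ∀ σ ∈ Ψ k, DifferentiableOn ℂ (F k σ) (UBall a)) ∧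
    (∀ k σ z, F k (NumberField.ComplexEmbedding.conjugate σ) z = conj (F k σ z)) ∧
    (∀ k σ, ∀ g ∈ M.Gam, ∀ z ∈ UBall a,
      F k σ (mob (g : Matrix (Fin (a + 1)) (Fin (a + 1)) ℂ) z) = F k σ z + σ (lam k g)) ∧
    ∫ z in M.D, (Matrix.of fun k j => fderiv ℝ (F k ι) z (rb a j)).det ≠ 0

end

end Pool.Agent.HC
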