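import Pool.Agent.helper54.HC.TDefs

/-!
# Project hc, torus part: auxiliary definitions used in the specification
-/

namespace Pool.Agent.HC

open scoped Matrix ComplexConjugate Classical

noncomputable section

attribute [instance] CMData.field CMData.nf

/-- the alternating form `v ↦ det (l_i (v_j))` -/
def detForm {A W : Type} [CommRing A] [Algebra ℝ A] [AddCommGroup W] [Module ℝ W] {k : ℕ}
    (l : Fin k → (W →ₗ[ℝ] A)) : W [⋀^Fin k]→ₗ[ℝ] A where
  toFun v := (Matrix.of fun i j => l i (v j)).det
  map_update_add' := by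
    intro inst v j x y
    obtain rfl : inst = instDecidableEqFin k := Subsingleton.elim _ _
    have h : ∀ w : W, (Matrix.of fun i j' => l i (Function.update v j w j')) =
        Matrix.updateCol (Matrix.of fun i j' => l i (v j')) j (fun i => l i w) := by
      intro w
      ext i j'
      by_cases hj : j' = j
      · subst hj; simp
      · simp [Function.update_of_ne hj, Matrix.updateCol_ne hj]
    rw [h, h, h, ← Matrix.det_updateCol_add]
    congr 2
    ext i
    simp
  map_update_smul' := by
    intro inst v j c x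
    obtain rfl : inst = instDecidableEqFin k := Subsingleton.elim _ _
    have h : ∀ w : W, (Matrix.of fun i j' => l i (Function.update v j w j')) =
        Matrix.updateCol (Matrix.of fun i j' => l i (v j')) j (fun i => l i w) := by
      intro w
      ext i j'
      by_cases hj : j' = j
      · subst hj; simp
      · simp [Function.update_of_ne hj, Matrix.updateCol_ne hj]
    rw [h, h, Algebra.smul_def, ← Matrix.det_updateCol_smul]
    congr 2
    ext i
    simp [Algebra.smul_def]
  map_eq_zero_of_eq' := by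
    intro v i j hv hij
    apply Matrix.det_zero_of_column_eq hij
    intro m
    simp [hv]

theorem detForm_apply {A W : Type} [CommRing A] [Algebra ℝ A] [AddCommGroup W] [Module ℝ W] {k : ℕ}
    (l : Fin k → (W →ₗ[ℝ] A)) (v : Fin k → W) :
    detForm l v = (Matrix.of fun i j => l i (v j)).det := rfl

variable {W : Type} [NormedAddCommGroup W] [NormedSpace ℂ W] {Lam : AddSubgroup W}

/-- index set of the coordinates of a CM torus: all pairs (j, embedding of K_j) -/
abbrev CMData.J (C : CMData W Lam) : Type := Σ j : Fin C.r, (C.K j →+* ℂ)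

/-- the coordinate of `W` at an embedding of `K_j`: the given one for the embeddings in `Φ_j`, complex
conjugate of the conjugate coordinate otherwise -/
def CMData.co (C : CMData W Lam) (s : C.J) : W →ₗ[ℝ] ℂ :=
  if h : s.2 ∈ C.Φ s.1 then
    (((LinearMap.proj (⟨s.2, h⟩ : C.Φ s.1)).comp
      ((LinearMap.proj s.1).comp C.e.toLinearMap) : W →ₗ[ℂ] ℂ)).restrictScalars ℝ
  else
    Complex.conjAe.toLinearMap.comp
      (((LinearMap.proj (⟨NumberField.ComplexEmbedding.conjugate s.2,
        not_not.mp (fun h' => h ((C.type s.1 s.2).mpr h'))⟩ : C.Φ s.1)).comp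
      ((LinearMap.proj s.1).comp C.e.toLinearMap) : W →ₗ[ℂ] ℂ).restrictScalars ℝ)

/-- complex extension of a real functional on real forms -/
def extC {k : ℕ} (ξ : (W [⋀^Fin k]→ₗ[ℝ] ℝ) →ₗ[ℝ] ℝ) (ω : W [⋀^Fin k]→ₗ[ℝ] ℂ) : ℂ :=
  (ξ (Complex.reLm.compAlternatingMap ω) : ℂ) + (ξ (Complex.imLm.compAlternatingMap ω) : ℂ) * Complex.I

/-- weight component of a functional -/
def CMData.wt (C : CMData W Lam) {k : ℕ} (ξ : (W [⋀^Fin k]→ₗ[ℝ] ℝ) →ₗ[ℝ] ℝ) (s : Fin k → C.J) : ℂ :=
  extC ξ (detForm fun i => C.co (s i))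

/-- weight component of the class of a map: `∫ dz_{s_1} ∧ ... ∧ dz_{s_2a}` -/
def CMData.per (C : CMData W Lam) {a : ℕ} (M : BallQuotient a) (f : (Fin a → ℂ) → W)
    (s : Fin (2 * a) → C.J) : ℂ :=
  ∫ z in M.D, (Matrix.of fun i j => C.co (s i) (fderiv ℝ f z (rb a j))).det

/-- a map up to a multiple: periods in the rational span of the lattice -/
structure IsQMap {a : ℕ} (M : BallQuotient a) (Lam : AddSubgroup W) (f : (Fin a → ℂ) → W) : Prop where
  hol : DifferentiableOn ℂ f (UBall a)
  per : ∀ g ∈ M.Gam, ∃ w : W, (∃ n : ℕ, n ≠ 0 ∧ n • w ∈ Lam) ∧ ∀ z ∈ UBall a,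
    f (mob (g : Matrix (Fin (a + 1)) (Fin (a + 1)) ℂ) z) - f z = w

/-- a field adapted to `C`: Galois CM field of degree at least 4 with all embeddings of the `K_j`
factoring through `ι` -/
structure Adapted (C : CMData W Lam) (E : Type) [Field E] [NumberField E] (ι : E →+* ℂ) : Prop where
  gal : IsGalois ℚ E
  cm : NumberField.IsCMField E
  deg : 4 ≤ Module.finrank ℚ E
  im : ∃ i : E, i ^ 2 = -1
  fac : ∀ (j : Fin C.r) (φ : C.K j →+* ℂ), ∃ ψ : C.K j →+* E, ι.comp ψ = φ

/-- the weight obtained from embeddings `ψ_i` of the `K_j` in `E` and an embedding `σ` of `E` -/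
def CMData.twist (C : CMData W Lam) {E : Type} [Field E] {k : ℕ} (σ : E →+* ℂ)
    (j : Fin k → Fin C.r) (ψ : ∀ i, C.K (j i) →+* E) : Fin k → C.J := fun i => ⟨j i, σ.comp (ψ i)⟩

end

end Pool.Agent.HC
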